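import Pool.Agent.N39.RG.BiasPoly
import Pool.Agent.Y807.WB.Main
import Pool.Agent.H498R2.KlWeil

set_option autoImplicit false

/-! # Exponential sums over modular hyperbolas and over families with an inverse -/

namespace Pool.Agent.U215.MH

open Finset
open Pool.Agent.N39.RG (psi_add psi_norm psi_conj mean_square_gen)

variable {p : ℕ} [Fact p.Prime]

/-- orthogonality -/
lemma sum_lin {a : ZMod p} (ha : a ≠ 0) : ∑ x : ZMod p, (ZMod.stdAddChar (a * x) : ℂ) = 0 := by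
  have h := AddChar.sum_mulShift (ψ := ZMod.stdAddChar (N := p)) a (ZMod.isPrimitive_stdAddChar p)
  rw [if_neg ha, Nat.cast_zero] at h
  rw [← h]
  exact sum_congr rfl fun x _ => by rw [mul_comm]

/-- orthogonality on the units -/
lemma sum_lin_units {a : ZMod p} (ha : a ≠ 0) :
    ∑ x : (ZMod p)ˣ, (ZMod.stdAddChar (a * (x : ZMod p)) : ℂ) = -1 := by
  classical
  have h1 := sum_lin ha
  have h2 : ∑ x : ZMod p, (ZMod.stdAddChar (a * x) : ℂ) =
      ∑ x : (ZMod p)ˣ, (ZMod.stdAddChar (a * (x : ZMod p)) : ℂ) + 1 := by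
    rw [← sum_filter_add_sum_filter_not (univ : Finset (ZMod p)) (fun x => x ≠ 0)
      (fun x => (ZMod.stdAddChar (a * x) : ℂ))]
    congr 1
    · symm
      refine sum_bij (fun (x : (ZMod p)ˣ) _ => (x : ZMod p)) ?_ ?_ ?_ ?_
      · intro x _
        rw [mem_filter]
        exact ⟨mem_univ _, x.ne_zero⟩
      · intro x _ y _ hxy
        exact Units.ext hxy
      · intro x hx
        rw [mem_filter] at hx
        exact ⟨Units.mk0 x hx.2, mem_univ _, rfl⟩
      · intro x _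
        rfl
    · have h4 : (univ.filter (fun x : ZMod p => ¬ x ≠ 0)) = {0} := by
        ext x
        simp
      rw [h4, sum_singleton, mul_zero, AddChar.map_zero_eq_one]
  rw [h2] at h1
  exact eq_neg_of_add_eq_zero_left h1

/-- sums over a modular hyperbola -/
theorem hyper_sum (hp : 3 ≤ p) (a b : ZMod p) (hab : a ≠ 0 ∨ b ≠ 0) :
    ‖∑ x : (ZMod p)ˣ, (ZMod.stdAddChar (a * (x : ZMod p) + b * ((x⁻¹ : (ZMod p)ˣ) : ZMod p)) : ℂ)‖ ≤
      2 * Real.sqrt p := by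
  classical
  have hp1 : (1 : ℝ) ≤ Real.sqrt p := by
    rw [Real.one_le_sqrt]
    exact_mod_cast (by omega : 1 ≤ p)
  by_cases ha : a = 0
  · have hb : b ≠ 0 := by
      rcases hab with h | h
      · exact absurd ha h
      · exact h
    have h1 : ∑ x : (ZMod p)ˣ, (ZMod.stdAddChar (a * (x : ZMod p) +
          b * ((x⁻¹ : (ZMod p)ˣ) : ZMod p)) : ℂ) =
        ∑ x : (ZMod p)ˣ, (ZMod.stdAddChar (b * (x : ZMod p)) : ℂ) := by
      rw [← Equiv.sum_comp (Equiv.inv (ZMod p)ˣ)]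
      refine sum_congr rfl fun x _ => ?_
      rw [ha, zero_mul, zero_add, Equiv.inv_apply, inv_inv]
    rw [h1, sum_lin_units hb, norm_neg, norm_one]
    linarith
  · by_cases hb : b = 0
    · have h1 : ∑ x : (ZMod p)ˣ, (ZMod.stdAddChar (a * (x : ZMod p) +
            b * ((x⁻¹ : (ZMod p)ˣ) : ZMod p)) : ℂ) =
          ∑ x : (ZMod p)ˣ, (ZMod.stdAddChar (a * (x : ZMod p)) : ℂ) :=
        sum_congr rfl fun x _ => by rw [hb, zero_mul, add_zero]
      rw [h1, sum_lin_units ha, norm_neg, norm_one]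
      linarith
    · have hF : ringChar (ZMod p) ≠ 2 := by
        rw [ZMod.ringChar_zmod_n]
        omega
      have h := Pool.Agent.H498R2.Kl.kloosterman_units_le hF (ZMod.isPrimitive_stdAddChar p) ha hb
      rw [ZMod.card] at h
      exact h

/-- the points of `x_0 x_1 ⋯ x_n ≡ c` -/
noncomputable def pt (c : ZMod p) {n : ℕ} (x : Fin n → (ZMod p)ˣ) : Fin (n + 1) → ZMod p :=
  Fin.cons (c * ((∏ i, x i)⁻¹ : (ZMod p)ˣ)) (fun i => (x i : ZMod p))

/-- sums over the hypersurface `x_0 x_1 ⋯ x_n ≡ c`, `n ≥ 1` -/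
theorem hyper_sum_many (hp : 3 ≤ p) (c : ZMod p) (hc : c ≠ 0) (m : ℕ) (α : Fin (m + 2) → ZMod p)
    (hα : α ≠ 0) :
    ‖∑ x : Fin (m + 1) → (ZMod p)ˣ, (ZMod.stdAddChar (∑ j, α j * pt c x j) : ℂ)‖ ≤
      2 * Real.sqrt p * ((p : ℝ) - 1) ^ m := by
  classical
  obtain ⟨i, hi⟩ : ∃ i : Fin (m + 1), α i.succ ≠ 0 ∨ α 0 ≠ 0 := by
    by_contra hcon
    push Not at hcon
    apply hα
    funext j
    refine Fin.cases ?_ (fun j => ?_) j
    · exact (hcon 0).2
    · exact (hcon j).1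
  rw [← Equiv.sum_comp (Fin.insertNthEquiv (fun _ => (ZMod p)ˣ) i), Fintype.sum_prod_type_right]
  refine (norm_sum_le _ _).trans ?_
  have h1 : ∀ y : Fin m → (ZMod p)ˣ, ‖∑ x : (ZMod p)ˣ, (ZMod.stdAddChar (∑ j, α j *
      pt c ((Fin.insertNthEquiv (fun _ => (ZMod p)ˣ) i) (x, y)) j) : ℂ)‖ ≤ 2 * Real.sqrt p := by
    intro y
    set b : ZMod p := α 0 * c * (((∏ i, y i)⁻¹ : (ZMod p)ˣ) : ZMod p) with hb
    have h2 : ∀ x : (ZMod p)ˣ, (∑ j, α j *
        pt c ((Fin.insertNthEquiv (fun _ => (ZMod p)ˣ) i) (x, y)) j) =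
        (∑ j, α (i.succAbove j).succ * (y j : ZMod p)) +
          (α i.succ * (x : ZMod p) + b * ((x⁻¹ : (ZMod p)ˣ) : ZMod p)) := by
      intro x
      have e1 : (Fin.insertNthEquiv (fun _ => (ZMod p)ˣ) i) (x, y) = i.insertNth x y := rfl
      rw [e1, Fin.sum_univ_succ, Fin.sum_univ_succAbove _ i]
      unfold pt
      rw [Fin.cons_zero, Fin.prod_univ_succAbove _ i]
      simp only [Fin.cons_succ, Fin.insertNth_apply_same, Fin.insertNth_apply_succAbove]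
      rw [hb, mul_inv, Units.val_mul]
      ring
    simp_rw [h2, psi_add]
    rw [← mul_sum, norm_mul, psi_norm, one_mul]
    have h3 := hyper_sum hp (α i.succ) b (by
      rcases hi with h | h
      · exact Or.inl h
      · exact Or.inr (mul_ne_zero (mul_ne_zero h hc) (Units.ne_zero _)))
    simp_rw [psi_add] at h3
    exact h3
  refine (sum_le_sum fun y _ => h1 y).trans ?_
  rw [sum_const, card_univ, Fintype.card_fun, Fintype.card_fin, ZMod.card_units_eq_totient,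
    Nat.totient_prime (Fact.out : p.Prime), nsmul_eq_mul, Nat.cast_pow,
    Nat.cast_sub (Fact.out : p.Prime).one_le, Nat.cast_one, mul_comm]

/-- the complete sum with two simple poles -/
theorem two_poles {a c : ZMod p} (ha : a ≠ 0) (hc : c ≠ 0) (b : ZMod p) :
    ‖∑ x : ZMod p, (ZMod.stdAddChar (a * x⁻¹ - a * (x + c)⁻¹ + b * x) : ℂ)‖ ≤ 6 * Real.sqrt p := by
  classical
  have h := Pool.Agent.Y807.WB.weil_le p a c b ha hc (ZMod.isPrimitive_stdAddChar p)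
  have hp1 : (1 : ℝ) ≤ Real.sqrt p := by
    rw [Real.one_le_sqrt]
    exact_mod_cast (Fact.out : p.Prime).one_le
  have h1 : ∑ x : ZMod p, (ZMod.stdAddChar (a * x⁻¹ - a * (x + c)⁻¹ + b * x) : ℂ) =
      ∑ x : ZMod p, (if x = 0 ∨ x + c = 0 then (0 : ℂ)
        else ZMod.stdAddChar (a * x⁻¹ - a * (x + c)⁻¹ + b * x)) +
      ∑ x ∈ ({0, -c} : Finset (ZMod p)), (ZMod.stdAddChar (a * x⁻¹ - a * (x + c)⁻¹ + b * x) : ℂ) := by
    have h2 : (univ.filter (fun x : ZMod p => x = 0 ∨ x + c = 0)) = {0, -c} := by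
      ext x
      rw [mem_filter, mem_insert, mem_singleton, add_eq_zero_iff_eq_neg]
      simp
    rw [← h2, sum_filter, ← sum_add_distrib]
    refine sum_congr rfl fun x _ => ?_
    by_cases h0 : x = 0 ∨ x + c = 0
    · rw [if_pos h0, if_pos h0, zero_add]
    · rw [if_neg h0, if_neg h0, add_zero]
  rw [h1]
  have h3 : ‖∑ x ∈ ({0, -c} : Finset (ZMod p)),
      (ZMod.stdAddChar (a * x⁻¹ - a * (x + c)⁻¹ + b * x) : ℂ)‖ ≤ 2 := by
    refine (norm_sum_le _ _).trans ?_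
    rw [sum_congr rfl fun x _ => psi_norm _, sum_const, nsmul_eq_mul, mul_one]
    exact_mod_cast card_le_two
  refine (norm_add_le _ _).trans ?_
  linarith

/-- the exponential sums of the family `c_j(x) y + e_j (y + b(x))⁻¹ + u_j(x) + v_j(y)` -/
theorem bias_inv {ι : Type} (X : Finset ι) (r : ℕ) (b : ι → ZMod p) (c : ι → Fin r → ZMod p)
    (e : Fin r → ZMod p) (u : ι → Fin r → ZMod p) (Y : Finset (ZMod p)) (v : ZMod p → Fin r → ZMod p)
    (α : Fin r → ZMod p) (N : ℝ)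
    (hN : (((X ×ˢ X).filter (fun q => ∑ j, α j * (c q.1 j - c q.2 j) = 0 ∧
      (∑ j, α j * e j = 0 ∨ b q.1 = b q.2))).card : ℝ) ≤ N) :
    ‖∑ z ∈ X ×ˢ Y, (ZMod.stdAddChar
        (∑ j, α j * (c z.1 j * z.2 + e j * (z.2 + b z.1)⁻¹ + u z.1 j + v z.2 j)) : ℂ)‖ ^ 2 ≤
      Y.card * (N * p + (X.card : ℝ) ^ 2 * (6 * Real.sqrt p)) := by
  classical
  set g : ι → ZMod p → ZMod p := fun x y => ∑ j, α j * u x j + (∑ j, α j * c x j) * y +
    (∑ j, α j * e j) * (y + b x)⁻¹ with hg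
  have h1 : ∑ z ∈ X ×ˢ Y, (ZMod.stdAddChar
        (∑ j, α j * (c z.1 j * z.2 + e j * (z.2 + b z.1)⁻¹ + u z.1 j + v z.2 j)) : ℂ) =
      ∑ y ∈ Y, (ZMod.stdAddChar (∑ j, α j * v y j) : ℂ) * ∑ x ∈ X, (ZMod.stdAddChar (g x y) : ℂ) := by
    rw [sum_product_right]
    refine sum_congr rfl fun y _ => ?_
    rw [mul_sum]
    refine sum_congr rfl fun x _ => ?_
    rw [← psi_add, hg]
    congr 1
    simp only [sum_mul]
    rw [← sum_add_distrib, ← sum_add_distrib, ← sum_add_distrib]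
    refine sum_congr rfl fun j _ => ?_
    ring
  rw [h1]
  have h2 : ‖∑ y ∈ Y, (ZMod.stdAddChar (∑ j, α j * v y j) : ℂ) *
      ∑ x ∈ X, (ZMod.stdAddChar (g x y) : ℂ)‖ ≤ ∑ y ∈ Y, ‖∑ x ∈ X, (ZMod.stdAddChar (g x y) : ℂ)‖ := by
    refine (norm_sum_le _ _).trans (le_of_eq (sum_congr rfl fun y _ => ?_))
    rw [norm_mul, psi_norm, one_mul]
  have h3 : (∑ y ∈ Y, ‖∑ x ∈ X, (ZMod.stdAddChar (g x y) : ℂ)‖) ^ 2 ≤
      Y.card * ∑ y ∈ Y, ‖∑ x ∈ X, (ZMod.stdAddChar (g x y) : ℂ)‖ ^ 2 := sq_sum_le_card_mul_sum_sq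
  have h4 : ∑ y ∈ Y, ‖∑ x ∈ X, (ZMod.stdAddChar (g x y) : ℂ)‖ ^ 2 ≤
      ∑ y : ZMod p, ‖∑ x ∈ X, (ZMod.stdAddChar (g x y) : ℂ)‖ ^ 2 :=
    sum_le_sum_of_subset_of_nonneg (subset_univ _) fun _ _ _ => by positivity
  have h5 := mean_square_gen X g
  have h6 : ∀ q ∈ X ×ˢ X, ‖∑ y : ZMod p, (ZMod.stdAddChar (g q.1 y - g q.2 y) : ℂ)‖ ≤
      (if (∑ j, α j * (c q.1 j - c q.2 j) = 0 ∧ (∑ j, α j * e j = 0 ∨ b q.1 = b q.2)) then (p : ℝ)
        else 0) + 6 * Real.sqrt p := by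
    intro q _
    have hsq : 0 ≤ 6 * Real.sqrt p := by positivity
    split_ifs with hbad
    · refine (norm_sum_le _ _).trans ?_
      rw [sum_congr rfl fun y _ => psi_norm _, sum_const, card_univ, ZMod.card, nsmul_eq_mul, mul_one]
      linarith
    · rw [zero_add]
      have hG : ∀ y, g q.1 y - g q.2 y = (∑ j, α j * u q.1 j - ∑ j, α j * u q.2 j) +
          ((∑ j, α j * (c q.1 j - c q.2 j)) * y + ((∑ j, α j * e j) * (y + b q.1)⁻¹ -
            (∑ j, α j * e j) * (y + b q.2)⁻¹)) := by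
        intro y
        rw [hg]
        simp only [mul_sub, sum_sub_distrib]
        ring
      have e1 : ‖∑ y : ZMod p, (ZMod.stdAddChar (g q.1 y - g q.2 y) : ℂ)‖ =
          ‖∑ y : ZMod p, (ZMod.stdAddChar ((∑ j, α j * (c q.1 j - c q.2 j)) * y +
            ((∑ j, α j * e j) * (y + b q.1)⁻¹ - (∑ j, α j * e j) * (y + b q.2)⁻¹)) : ℂ)‖ := by
        have e2 : ∑ y : ZMod p, (ZMod.stdAddChar (g q.1 y - g q.2 y) : ℂ) =
            (ZMod.stdAddChar (∑ j, α j * u q.1 j - ∑ j, α j * u q.2 j) : ℂ) *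
              ∑ y : ZMod p, (ZMod.stdAddChar ((∑ j, α j * (c q.1 j - c q.2 j)) * y +
                ((∑ j, α j * e j) * (y + b q.1)⁻¹ - (∑ j, α j * e j) * (y + b q.2)⁻¹)) : ℂ) := by
          rw [mul_sum]
          refine sum_congr rfl fun y _ => ?_
          rw [← psi_add, hG]
        rw [e2, norm_mul, psi_norm, one_mul]
      rw [e1]
      set A := ∑ j, α j * e j with hA
      set B := ∑ j, α j * (c q.1 j - c q.2 j) with hB
      by_cases h0 : A = 0 ∨ b q.1 = b q.2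
      · have hB0 : B ≠ 0 := fun h => hbad ⟨h, h0⟩
        have h7 : ∀ y, B * y + (A * (y + b q.1)⁻¹ - A * (y + b q.2)⁻¹) = B * y := by
          intro y
          rcases h0 with h | h
          · rw [h]
            ring
          · rw [h]
            ring
        simp_rw [h7]
        rw [sum_lin hB0, norm_zero]
        exact hsq
      · push Not at h0
        have hc0 : b q.2 - b q.1 ≠ 0 := sub_ne_zero.2 (Ne.symm h0.2)
        have h7 := two_poles h0.1 hc0 B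
        have h8 : ‖∑ y : ZMod p, (ZMod.stdAddChar (B * y +
            (A * (y + b q.1)⁻¹ - A * (y + b q.2)⁻¹)) : ℂ)‖ =
            ‖∑ x : ZMod p, (ZMod.stdAddChar (A * x⁻¹ - A * (x + (b q.2 - b q.1))⁻¹ + B * x) : ℂ)‖ := by
          have h9 : ∑ x : ZMod p, (ZMod.stdAddChar (A * x⁻¹ - A * (x + (b q.2 - b q.1))⁻¹ + B * x) : ℂ) =
              (ZMod.stdAddChar (B * b q.1) : ℂ) * ∑ y : ZMod p, (ZMod.stdAddChar (B * y +
                (A * (y + b q.1)⁻¹ - A * (y + b q.2)⁻¹)) : ℂ) := by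
            rw [← Equiv.sum_comp (Equiv.addRight (b q.1)), mul_sum]
            refine sum_congr rfl fun y _ => ?_
            rw [Equiv.coe_addRight, ← psi_add]
            congr 1
            rw [show y + b q.1 + (b q.2 - b q.1) = y + b q.2 by ring]
            ring
          rw [h9, norm_mul, psi_norm, one_mul]
        rw [h8]
        exact h7
  have h7 : ∑ q ∈ X ×ˢ X, ‖∑ y : ZMod p, (ZMod.stdAddChar (g q.1 y - g q.2 y) : ℂ)‖ ≤
      N * p + (X.card : ℝ) ^ 2 * (6 * Real.sqrt p) := by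
    refine (sum_le_sum h6).trans ?_
    rw [sum_add_distrib, ← sum_filter, sum_const, sum_const, card_product, nsmul_eq_mul,
      nsmul_eq_mul]
    have h8 := mul_le_mul_of_nonneg_right hN (Nat.cast_nonneg (α := ℝ) p)
    push_cast
    nlinarith
  calc _ ≤ (∑ y ∈ Y, ‖∑ x ∈ X, (ZMod.stdAddChar (g x y) : ℂ)‖) ^ 2 :=
        pow_le_pow_left₀ (norm_nonneg _) h2 2
    _ ≤ Y.card * ∑ y ∈ Y, ‖∑ x ∈ X, (ZMod.stdAddChar (g x y) : ℂ)‖ ^ 2 := h3
    _ ≤ Y.card * ∑ y : ZMod p, ‖∑ x ∈ X, (ZMod.stdAddChar (g x y) : ℂ)‖ ^ 2 := by gcongr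
    _ ≤ _ := by
        apply mul_le_mul_of_nonneg_left _ (Nat.cast_nonneg _)
        exact h5.trans h7

end Pool.Agent.U215.MH
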